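import Pool.Agent.K9h78.LP.MN2
import Pool.Agent.R260.SC.FinalP

/-!
# Complex planes in Schatten classes: all exponents other than 2, 4, 6 are excluded

Let `A = E₁₁` and let `B` be the all-ones `2 × 2` matrix. If `p ≥ 1` is not an even integer then the
complex span of `A, B` in `S_p` is not isometric to a subspace of complex `L_p(0,1)`.

Proof. The singular values of `z A + B` satisfy `s₁ s₂ = |z|` and `s₁² + s₂² = |z|² + 2 Re z + 4`;
so near `z = 0` the function `M(z) = ‖z A + B‖_p^p` is the sum of the real analytic function `s₁^p`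
and of `|z|^p s₁^(-p) = |z|^p (c + L(z) + O(|z|²))` with a linear form `L ≠ 0`. If
`M(z) = ∫ |z f + g|^p`, apply to `M` the `k`-th difference (`2 k ≥ p + 2`), with respect to `a`, of
the averages against `a^(1+p/2) (a + |z - z₀|²)^(-2-p/2)`. For `|z f + g|^p` this gives a multiple of
the `k`-th difference of `(a |f|² + |g + z₀ f|²)^(p/2)`, which has constant sign, while
polynomials of degree `< p + 2` are killed. Rescaling to small `z` shows that the part of `∫ |f|^p`
on `{g = 0}` is `c`, and then that the first order term coming from `|z|^p L(z)` has constant sign;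
it is an odd function of `z₀`, so it vanishes. But its derivative at `z₀ = 0` is a nonzero
multiple of `L`.
-/

set_option autoImplicit false

open MeasureTheory Matrix

namespace Pool.Agent.K9h78.Old.NonEvenExponents

/-- `tr |M|^p`: the sum of the numbers `λ^(p/2)` over the eigenvalues `λ` of `M* M`. -/
noncomputable def trPow {n : ℕ} (p : ℝ) (M : Matrix (Fin n) (Fin n) ℂ) : ℝ :=
  ∑ i, (isHermitian_conjTranspose_mul_self M).eigenvalues i ^ (p / 2)

/-- The complex span of `A, B` in `S_p` is isometric to a subspace of complex `L_p(0,1)`. -/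
def Embeds {n : ℕ} (p : ℝ) (A B : Matrix (Fin n) (Fin n) ℂ) : Prop :=
  ∃ f g : ℝ → ℂ, MemLp f (ENNReal.ofReal p) (volume.restrict (Set.Ioo (0:ℝ) 1)) ∧
    MemLp g (ENNReal.ofReal p) (volume.restrict (Set.Ioo (0:ℝ) 1)) ∧
    ∀ α β : ℂ, trPow p (α • A + β • B) =
      ∫ t in Set.Ioo (0:ℝ) 1, ‖α * f t + β * g t‖ ^ p

/-- (1) If `p ≥ 1` is not an even integer, then the pair `E₁₁`, all-ones matrix of `2 × 2` matrices
does not embed into complex `L_p`. (2) Hence (with the pair `1, E₁₂` for even `p ≥ 8`) the only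
exponents `p ≥ 1` for which all pairs of matrices can embed are `2`, `4` and `6`. -/
theorem result (p : ℝ) (hp : 1 ≤ p) :
    ((∀ n : ℕ, p ≠ 2 * n) →
      ¬ Embeds p (!![1, 0; 0, 0] : Matrix (Fin 2) (Fin 2) ℂ) !![1, 1; 1, 1]) ∧
    ((∀ (n : ℕ) (A B : Matrix (Fin n) (Fin n) ℂ), Embeds p A B) → p = 2 ∨ p = 4 ∨ p = 6) := by
  have h1 : (∀ n : ℕ, p ≠ 2 * n) →
      ¬ Embeds p (!![1, 0; 0, 0] : Matrix (Fin 2) (Fin 2) ℂ) !![1, 1; 1, 1] := by
    rintro hne ⟨f, g, hf, hg, h⟩
    refine Pool.Agent.K9h78.LP.main hp hne hf hg fun z => ?_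
    have h2 := h z 1
    have h3 : trPow p (z • (!![1, 0; 0, 0] : Matrix (Fin 2) (Fin 2) ℂ) + (1 : ℂ) • !![1, 1; 1, 1]) =
        Pool.Agent.K9h78.LP.MM p z := Pool.Agent.K9h78.LP.tr_formula p z
    rw [h3] at h2
    rw [h2]
    simp only [one_mul]
  refine ⟨h1, fun hall => ?_⟩
  by_contra hcon
  push Not at hcon
  obtain ⟨h2, h4, h6⟩ := hcon
  rcases lt_or_ge p 8 with h8 | h8
  · refine h1 (fun n hn => ?_) (hall 2 _ _)
    have hn4 : n < 4 := by
      have : (n : ℝ) < 4 := by linarith
      exact_mod_cast this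
    interval_cases n
    · norm_num at hn
      linarith
    · norm_num at hn
      exact h2 hn
    · norm_num at hn
      exact h4 hn
    · norm_num at hn
      exact h6 hn
  · exact Pool.Agent.R260.SC.all_no p h8 (hall 2 1 !![0, 1; 0, 0])

end Pool.Agent.K9h78.Old.NonEvenExponents
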